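import Pool.Agent.H276R3.FQ.MainTR

/-! Fermat's equation over totally real fields: every solution has a prime ideal `𝔮` with
`N𝔮 ≡ 1 mod p` in the denominator of `(a+b)/c`; in particular there is no solution for which
`(a+b)/c` has a denominator composed of small primes (and powers of `p`). -/

set_option autoImplicit false

namespace Pool.Agent.Results.MP_ef6a16_nt.TotallyRealDenominators

open Pool.Agent.H276R3.FQ

theorem result (K : Type) [Field K] [NumberField K]
    (hR : ∀ w : NumberField.InfinitePlace K, w.IsReal)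
    (p : ℕ) (hp : p.Prime) (h3 : 3 ≤ p) (hg : Module.finrank ℚ K + 1 < p)
    (a b c : K) (ha : a ≠ 0) (hb : b ≠ 0) (hc : c ≠ 0) (h : a ^ p + b ^ p + c ^ p = 0) :
    (∃ v : IsDedekindDomain.HeightOneSpectrum (NumberField.RingOfIntegers K),
      Ideal.absNorm v.asIdeal ≡ 1 [MOD p] ∧ 1 < v.valuation K ((a + b) / c)) ∧
    (∀ d : ℕ, 0 < d → (∀ l : ℕ, l.Prime → l ∣ d → l ^ Module.finrank ℚ K ≤ p ∨ l = p) →
      ¬ IsIntegral ℤ ((d : K) * ((a + b) / c))) := by
  refine ⟨?_, fun d hd0 hd => no_smooth_denominator hR hp h3 hg ha hb hc h d hd0 hd⟩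
  obtain ⟨v, hv, hlt⟩ := exists_prime_tr hR hp h3 hg ha hb hc h
  exact ⟨v, (card_modEq v hv).1, hlt⟩

end Pool.Agent.Results.MP_ef6a16_nt.TotallyRealDenominators
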